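import Pool.Agent.Helper431.CycleIso

set_option autoImplicit false

namespace Pool.Agent.H346R3

open SimpleGraph Pool.Agent.Helper431

variable {V : Type*} {G : SimpleGraph V} {R : Set V} {dep : V → ℕ} {p : V → V}

/-- `F` consists of vertices without downward neighbours. -/
def Low (G : SimpleGraph V) (dep : V → ℕ) (F : Set V) : Prop :=
  ∀ f ∈ F, ∀ z, G.Adj f z → dep z ≤ dep f

theorem Low.not_mem {F : Set V} (hF : Low G dep F) {z v : V} (h : G.Adj z v)
    (hd : dep z + 1 = dep v) : z ∉ F := by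
  intro hz
  have := hF z hz v h
  omega

/-- Claim B relative to a set of dropped vertices. -/
theorem claimB (B : BFS G R dep p) {F X Y : Set V} {n m : ℕ} (hF : Low G dep F)
    (hX : ∀ x ∈ X, dep x = n) (hY : ∀ y ∈ Y, dep y = n) (hXY : ∀ x ∈ X, x ∉ Y)
    (hmin : ∀ w ∈ WS G R p, w ∉ F → InT R p X w → m ≤ dep w) {v : V} (hv : InT R p X v)
    (hvF : v ∉ F) (hd : dep v < m) : ¬ J G dep Y v := by
  induction hv with
  | base x hx =>
    intro hJ
    exact hXY x hx (B.J_base hY hJ (hX x hx))
  | step s hs h ih =>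
    intro hJ
    have h1 := B.p_adj s hs
    have h2 := B.InT_dep hX h
    obtain ⟨z, hz, hzd, hzJ⟩ := B.J_step hY hJ (by omega)
    by_cases hzp : z = p s
    · subst hzp
      exact ih (hF.not_mem h1.1.symm h1.2) (by omega) hzJ
    · have := hmin s ⟨z, B.nt_of_up hz hzd hzp⟩ hvF (InT.step s hs h)
      omega

/-- Claim C relative to a set of dropped vertices. -/
theorem claimC (B : BFS G R dep p) {F X : Set V} {n m : ℕ} (hF : Low G dep F)
    (hX : ∀ x ∈ X, dep x = n)
    (hmin : ∀ w ∈ WS G R p, w ∉ F → InT R p X w → m ≤ dep w) :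
    ∀ (k : ℕ) (v : V), dep v = k → ¬ InT R p X v → dep v < m → ¬ J G dep X v := by
  intro k
  induction k using Nat.strong_induction_on with
  | _ k ih =>
    intro v hk hv hd hJ
    have hge := B.J_dep hX hJ
    rcases Nat.lt_or_ge n (dep v) with hlt | hle
    · obtain ⟨z, hz, hzd, hzJ⟩ := B.J_step hX hJ hlt
      have hvR : v ∉ R := fun h => by have := B.dep_root h; omega
      by_cases hzT : InT R p X z
      · have hzp : z ≠ p v := by
          rintro rfl
          exact hv (InT.step v hvR hzT)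
        have hnt := B.nt_of_up hz hzd hzp
        have := hmin z ⟨v, BFS.nt_symm hnt⟩ (hF.not_mem hz.symm hzd) hzT
        omega
      · exact ih (dep z) (by omega) z rfl hzT (by omega) hzJ
    · have : v ∈ X := B.J_base hX hJ (by omega)
      exact hv (InT.base v this)

/-- Lemma A relative to a set of dropped vertices. -/
theorem lemmaA (B : BFS G R dep p) {F X Y : Set V} {n : ℕ} (hF : Low G dep F)
    (hX : ∀ x ∈ X, dep x = n) (hY : ∀ y ∈ Y, dep y = n) (hXY : ∀ x ∈ X, x ∉ Y)
    (hW : ∃ s ∈ WS G R p, s ∉ F ∧ InT R p X s) :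
    ∃ s ∈ WS G R p, s ∉ F ∧ ¬ (J G dep X s ↔ J G dep Y s) := by
  by_contra hcon
  push Not at hcon
  classical
  have hex : ∃ m, ∃ s ∈ WS G R p, s ∉ F ∧ InT R p X s ∧ dep s = m := by
    obtain ⟨s, hs, hsF, hs'⟩ := hW
    exact ⟨_, s, hs, hsF, hs', rfl⟩
  obtain ⟨s, hsW, hsF, hsT, hsd⟩ := Nat.find_spec hex
  have hmin : ∀ w ∈ WS G R p, w ∉ F → InT R p X w → dep s ≤ dep w := by
    intro w hw hwF hwT
    rw [hsd]
    exact Nat.find_min' hex ⟨w, hw, hwF, hwT, rfl⟩
  have hJX : J G dep X s := B.InT_J hsT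
  have hJY : J G dep Y s := (hcon s hsW hsF).mp hJX
  have hge := B.InT_dep hX hsT
  have hlt : n < dep s := by
    rcases Nat.lt_or_ge n (dep s) with h | h
    · exact h
    · exact absurd (B.J_base hY hJY (by omega)) (hXY s (B.InT_base hX hsT (by omega)))
  obtain ⟨z, hz, hzd, hzJ⟩ := B.J_step hY hJY hlt
  have hzF : z ∉ F := hF.not_mem hz.symm hzd
  have hzT : ¬ InT R p X z := fun hzT =>
    claimB B hF hX hY hXY hmin hzT hzF (by omega) hzJ
  have hsX : s ∉ X := fun h => by have := hX s h; omega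
  have hzp : z ≠ p s := by
    rintro rfl
    exact hzT (B.InT_parent hsT hsX).1
  have hnt := B.nt_of_up hz hzd hzp
  have hzW : z ∈ WS G R p := ⟨s, BFS.nt_symm hnt⟩
  have hzX : J G dep X z := (hcon z hzW hzF).mpr hzJ
  exact claimC B hF hX hmin (dep z) z rfl hzT (by omega) hzX

theorem dist_root {r : V} (B : BFS G {r} dep p) (v : V) : G.dist r v = dep v := by
  obtain ⟨r', hr', h⟩ := B.dep_att v
  rw [Set.mem_singleton_iff] at hr'
  subst hr'
  rw [dist_comm, h]

/-- the candidate set. -/
def SS (G : SimpleGraph V) (r : V) (p : V → V) (F : Set V) : Set V :=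
  {s | s = r ∨ (s ∈ WS G {r} p ∧ s ∉ F)}

theorem SS_of {r : V} {F : Set V} {s : V} (h : s ∈ WS G {r} p) (h' : s ∉ F) :
    s ∈ SS G r p F := Or.inr ⟨h, h'⟩

theorem nt_horiz {r : V} (B : BFS G {r} dep p) {a b : V} (h : G.Adj a b) (hd : dep a = dep b) :
    NT G {r} p a b := by
  refine ⟨h, ?_, B.p_ne hd.le h.ne, B.p_ne hd.ge h.symm.ne⟩
  rintro ⟨ha, hb⟩
  rw [Set.mem_singleton_iff] at ha hb
  exact h.ne (ha.trans hb.symm)

section

variable {r : V} {F : Set V}

/-- vertex pairs -/
theorem res_vv (B : BFS G {r} dep p) (hsub : F.Subsingleton) (hF : Low G dep F)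
    (hgood : ∀ v, v ≠ r → v ∉ F → ∃ s ∈ WS G {r} p, s ∉ F ∧ InT {r} p {v} s)
    {x y : V} (hne : x ≠ y) : ∃ s ∈ SS G r p F, G.dist s x ≠ G.dist s y := by
  by_cases hd : dep x = dep y
  · have key : ∀ x y : V, x ≠ y → dep x = dep y → y ∉ F →
        ∃ s ∈ SS G r p F, G.dist s x ≠ G.dist s y := by
      intro x y hne hd hy
      have hyr : y ≠ r := by
        rintro rfl
        have h0 := B.dep_root (v := y) rfl
        have := B.root_of_dep (v := x) (by omega)
        exact hne this
      obtain ⟨s, hs, hsF, hJ⟩ := lemmaA B (X := {y}) (Y := {x}) (n := dep y) hF (by simp)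
        (by simp [hd]) (by simpa using hne.symm) (hgood y hyr hy)
      rw [BFS.J_single, BFS.J_single] at hJ
      exact ⟨s, SS_of hs hsF, by omega⟩
    by_cases hy : y ∈ F
    · have hx : x ∉ F := fun hx => hne (hsub hx hy)
      obtain ⟨s, hs, h⟩ := key y x hne.symm hd.symm hx
      exact ⟨s, hs, h.symm⟩
    · exact key x y hne hd hy
  · exact ⟨r, Or.inl rfl, by rw [dist_root B, dist_root B]; exact hd⟩

/-- a vertical edge whose lower end is good -/
theorem res_down (B : BFS G {r} dep p)
    (hgood : ∀ v, v ≠ r → v ∉ F → ∃ s ∈ WS G {r} p, s ∉ F ∧ InT {r} p {v} s)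
    {d : V} (hd0 : 0 < dep d) (hd : d ∉ F) :
    ∃ s ∈ SS G r p F, G.dist s d + dep d = dep s := by
  have hr : d ≠ r := by
    rintro rfl
    have := B.dep_root (v := d) rfl
    omega
  obtain ⟨s, hs, hsF, hT⟩ := hgood d hr hd
  exact ⟨s, SS_of hs hsF, BFS.J_single.mp (B.InT_J hT)⟩

/-- edge pairs -/
theorem res_ee (B : BFS G {r} dep p) (hsub : F.Subsingleton) (hF : Low G dep F)
    (hgood : ∀ v, v ≠ r → v ∉ F → ∃ s ∈ WS G {r} p, s ∉ F ∧ InT {r} p {v} s)
    {a b c d : V} (hab : G.Adj a b) (hcd : G.Adj c d) (hne1 : ¬ (a = c ∧ b = d))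
    (hne2 : ¬ (a = d ∧ b = c)) :
    ∃ s ∈ SS G r p F, min (G.dist s a) (G.dist s b) ≠ min (G.dist s c) (G.dist s d) := by
  wlog hab' : dep a ≤ dep b generalizing a b
  · obtain ⟨s, hs, h⟩ := this hab.symm (fun h => hne2 ⟨h.2, h.1⟩) (fun h => hne1 ⟨h.2, h.1⟩)
      (by omega)
    exact ⟨s, hs, by rwa [min_comm (G.dist s a)]⟩
  wlog hcd' : dep c ≤ dep d generalizing c d
  · obtain ⟨s, hs, h⟩ := this hcd.symm hne2 hne1 (by omega)
    exact ⟨s, hs, by rwa [min_comm (G.dist s c)]⟩
  have hpos : ∀ {x y : V}, x ≠ y → 0 < G.dist x y := fun h => B.conn.pos_dist_of_ne h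
  by_cases htop : dep a = dep c
  swap
  · refine ⟨r, Or.inl rfl, ?_⟩
    rw [dist_root B, dist_root B, dist_root B, dist_root B]
    omega
  have hb := B.dep_adj hab.symm
  have hd := B.dep_adj hcd.symm
  -- a horizontal edge against a vertical edge
  have key : ∀ {a b c d : V}, G.Adj a b → G.Adj c d → dep a = dep b → dep c = dep a →
      dep d = dep a + 1 →
      ∃ s ∈ SS G r p F, min (G.dist s a) (G.dist s b) ≠ min (G.dist s c) (G.dist s d) := by
    intro a b c d hab hcd h1 h2 h3
    by_cases hdF : d ∈ F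
    · have haF : a ∉ F := fun h => by have := hsub h hdF; subst this; omega
      have hbF : b ∉ F := fun h => by have := hsub h hdF; subst this; omega
      have hnt := nt_horiz B hab h1
      by_cases hac : a = c
      · have hbc : b ≠ c := fun h => hab.ne (hac.trans h.symm)
        have hbd : b ≠ d := fun h => by subst h; omega
        refine ⟨b, SS_of ⟨a, BFS.nt_symm hnt⟩ hbF, ?_⟩
        have e1 := hpos hbc
        have e2 := hpos hbd
        have e3 : G.dist b b = 0 := dist_self
        omega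
      · have had : a ≠ d := fun h => by subst h; omega
        refine ⟨a, SS_of ⟨b, hnt⟩ haF, ?_⟩
        have e1 := hpos hac
        have e2 := hpos had
        have e3 : G.dist a a = 0 := dist_self
        omega
    · obtain ⟨s, hs, h⟩ := res_down B hgood (d := d) (by omega) hdF
      have e1 := B.dep_lip s a
      have e2 := B.dep_lip s b
      exact ⟨s, hs, by omega⟩
  rcases Nat.lt_or_ge (dep a) (dep b) with hlt | hge
  · rcases Nat.lt_or_ge (dep c) (dep d) with hlt' | hge'
    · -- both vertical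
      by_cases hbd : b = d
      · subst hbd
        have hac : a ≠ c := fun h => hne1 ⟨h, rfl⟩
        by_cases hp : p b = a
        · have hpc : p b ≠ c := fun h => hac (hp.symm.trans h)
          have hnt : NT G {r} p b c := B.nt_of_up hcd.symm (by omega) (fun h => hpc h.symm)
          refine ⟨c, SS_of ⟨b, BFS.nt_symm hnt⟩ (hF.not_mem hcd (by omega)), ?_⟩
          have e1 := hpos hac.symm
          have e2 := hpos hcd.ne
          have e3 : G.dist c c = 0 := dist_self
          omega
        · have hnt : NT G {r} p b a := B.nt_of_up hab.symm (by omega) (fun h => hp h.symm)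
          refine ⟨a, SS_of ⟨b, BFS.nt_symm hnt⟩ (hF.not_mem hab (by omega)), ?_⟩
          have e1 := hpos hac
          have e2 := hpos hab.ne
          have e3 : G.dist a a = 0 := dist_self
          omega
      · have key2 : ∀ {a b c d : V}, G.Adj a b → G.Adj c d → dep b = dep a + 1 →
            dep c = dep a → dep d = dep a + 1 → b ≠ d → b ∉ F →
            ∃ s ∈ SS G r p F,
              min (G.dist s a) (G.dist s b) ≠ min (G.dist s c) (G.dist s d) := by
          intro a b c d hab hcd h1 h2 h3 hbd hbF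
          have hbr : b ≠ r := by
            rintro rfl
            have := B.dep_root (v := b) rfl
            omega
          obtain ⟨s, hs, hsF, hJ⟩ := lemmaA B (X := {b}) (Y := {d}) (n := dep b) hF (by simp)
            (by simp; omega) (by simpa using hbd) (hgood b hbr hbF)
          rw [BFS.J_single, BFS.J_single] at hJ
          have e1 := B.dep_lip s a
          have e2 := B.dep_lip s b
          have e3 := B.dep_lip s c
          have e4 := B.dep_lip s d
          exact ⟨s, SS_of hs hsF, by omega⟩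
        by_cases hbF : b ∈ F
        · have hdF : d ∉ F := fun h => hbd (hsub hbF h)
          obtain ⟨s, hs, h⟩ := key2 hcd hab (by omega) (by omega) (by omega) (Ne.symm hbd) hdF
          exact ⟨s, hs, h.symm⟩
        · exact key2 hab hcd (by omega) (by omega) (by omega) hbd hbF
    · obtain ⟨s, hs, h⟩ := key hcd hab (by omega) (by omega) (by omega)
      exact ⟨s, hs, h.symm⟩
  · rcases Nat.lt_or_ge (dep c) (dep d) with hlt' | hge'
    · exact key hab hcd (by omega) (by omega) (by omega)
    · -- both horizontal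
      have hnt1 := nt_horiz B hab (by omega)
      have hnt2 := nt_horiz B hcd (by omega)
      have haW : a ∈ WS G {r} p := ⟨b, hnt1⟩
      have hbW : b ∈ WS G {r} p := ⟨a, BFS.nt_symm hnt1⟩
      have hcW : c ∈ WS G {r} p := ⟨d, hnt2⟩
      have hdW : d ∈ WS G {r} p := ⟨c, BFS.nt_symm hnt2⟩
      obtain ⟨t, ht, htW, htc, htd⟩ : ∃ t, (t = a ∨ t = b) ∧ t ∈ WS G {r} p ∧ t ≠ c ∧ t ≠ d := by
        by_cases h : a ≠ c ∧ a ≠ d
        · exact ⟨a, Or.inl rfl, haW, h.1, h.2⟩
        · refine ⟨b, Or.inr rfl, hbW, ?_, ?_⟩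
          · rintro rfl
            by_cases h' : a = d
            · exact hne2 ⟨h', rfl⟩
            · exact h ⟨hab.ne, h'⟩
          · rintro rfl
            by_cases h' : a = c
            · exact hne1 ⟨h', rfl⟩
            · exact h ⟨h', hab.ne⟩
      obtain ⟨t', ht', htW', hta, htb⟩ :
          ∃ t', (t' = c ∨ t' = d) ∧ t' ∈ WS G {r} p ∧ t' ≠ a ∧ t' ≠ b := by
        by_cases h : c ≠ a ∧ c ≠ b
        · exact ⟨c, Or.inl rfl, hcW, h.1, h.2⟩
        · refine ⟨d, Or.inr rfl, hdW, ?_, ?_⟩
          · rintro rfl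
            by_cases h' : c = b
            · exact hne2 ⟨rfl, h'.symm⟩
            · exact h ⟨hcd.ne, h'⟩
          · rintro rfl
            by_cases h' : c = a
            · exact hne1 ⟨h'.symm, rfl⟩
            · exact h ⟨h', hcd.ne⟩
      by_cases htF : t ∈ F
      · have htF' : t' ∉ F := fun h => by
          have := hsub htF h
          subst this
          rcases ht with rfl | rfl
          · exact hta rfl
          · exact htb rfl
        refine ⟨t', SS_of htW' htF', ?_⟩
        have e1 := hpos hta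
        have e2 := hpos htb
        have e3 : G.dist t' t' = 0 := dist_self
        rcases ht' with rfl | rfl <;> omega
      · refine ⟨t, SS_of htW htF, ?_⟩
        have e1 := hpos htc
        have e2 := hpos htd
        have e3 : G.dist t t = 0 := dist_self
        rcases ht with rfl | rfl <;> omega

/-- vertex-edge pairs -/
theorem res_ve (B : BFS G {r} dep p) (hsub : F.Subsingleton)
    (hgood : ∀ v, v ≠ r → v ∉ F → ∃ s ∈ WS G {r} p, s ∉ F ∧ InT {r} p {v} s)
    (H1 : ∀ f ∈ F, ∀ a, G.Adj a f → dep a + 1 = dep f → ∀ x, dep x = dep a →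
      ∃ s ∈ SS G r p F, G.dist s x ≠ min (G.dist s a) (G.dist s f))
    (H2 : ∀ f ∈ F, ∀ b, G.Adj f b → dep b = dep f →
      ∃ s ∈ SS G r p F, G.dist s b ≠ min (G.dist s f) (G.dist s b))
    {x a b : V} (hab : G.Adj a b) :
    ∃ s ∈ SS G r p F, G.dist s x ≠ min (G.dist s a) (G.dist s b) := by
  wlog hab' : dep a ≤ dep b generalizing a b
  · obtain ⟨s, hs, h⟩ := this hab.symm (by omega)
    exact ⟨s, hs, by rwa [min_comm (G.dist s a)]⟩
  have hpos : ∀ {x y : V}, x ≠ y → 0 < G.dist x y := fun h => B.conn.pos_dist_of_ne h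
  by_cases htop : dep x = dep a
  swap
  · refine ⟨r, Or.inl rfl, ?_⟩
    rw [dist_root B, dist_root B, dist_root B]
    omega
  have hb := B.dep_adj hab.symm
  rcases Nat.lt_or_ge (dep a) (dep b) with hlt | hge
  · by_cases hbF : b ∈ F
    · exact H1 b hbF a hab (by omega) x htop
    · obtain ⟨s, hs, h⟩ := res_down B hgood (d := b) (by omega) hbF
      have e1 := B.dep_lip s x
      exact ⟨s, hs, by omega⟩
  · have hnt := nt_horiz B hab (by omega)
    have haW : a ∈ WS G {r} p := ⟨b, hnt⟩
    have hbW : b ∈ WS G {r} p := ⟨a, BFS.nt_symm hnt⟩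
    by_cases ha : a ≠ x ∧ a ∉ F
    · refine ⟨a, SS_of haW ha.2, ?_⟩
      have e1 := hpos ha.1
      have e3 : G.dist a a = 0 := dist_self
      omega
    by_cases hb' : b ≠ x ∧ b ∉ F
    · refine ⟨b, SS_of hbW hb'.2, ?_⟩
      have e1 := hpos hb'.1
      have e3 : G.dist b b = 0 := dist_self
      omega
    by_cases hax : a = x
    · subst hax
      have hbF : b ∈ F := by
        by_contra h
        exact hb' ⟨hab.symm.ne, h⟩
      obtain ⟨s, hs, h⟩ := H2 b hbF a hab.symm (by omega)
      exact ⟨s, hs, by rwa [min_comm] at h⟩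
    · have haF : a ∈ F := by
        by_contra h
        exact ha ⟨hax, h⟩
      have hbF : b ∉ F := fun h => hab.ne (hsub haF h)
      have hbx : b = x := by
        by_contra h
        exact hb' ⟨h, hbF⟩
      subst hbx
      exact H2 a haF b hab (by omega)

end

end Pool.Agent.H346R3
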