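import Pool.Agent.H346R3.MixedA

set_option autoImplicit false

namespace Pool.Agent.H346R3

open SimpleGraph Pool.Agent.Helper431

variable {V : Type*} {G : SimpleGraph V} {dep : V → ℕ} {p : V → V}

/-- `S` separates all vertices and edges. -/
def Resolves (G : SimpleGraph V) (S : Set V) : Prop :=
  (∀ x y : V, x ≠ y → ∃ s ∈ S, G.dist s x ≠ G.dist s y) ∧
  (∀ a b c d : V, G.Adj a b → G.Adj c d → ¬ (a = c ∧ b = d) → ¬ (a = d ∧ b = c) →
    ∃ s ∈ S, min (G.dist s a) (G.dist s b) ≠ min (G.dist s c) (G.dist s d)) ∧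
  (∀ x a b : V, G.Adj a b → ∃ s ∈ S, G.dist s x ≠ min (G.dist s a) (G.dist s b))

theorem resolves_full {r : V} (B : BFS G {r} dep p)
    (hgood : ∀ v, v ≠ r → ∃ s ∈ WS G {r} p, InT {r} p {v} s) :
    Resolves G (SS G r p ∅) := by
  have hg : ∀ v, v ≠ r → v ∉ (∅ : Set V) → ∃ s ∈ WS G {r} p, s ∉ (∅ : Set V) ∧ InT {r} p {v} s :=
    fun v hv _ => by
      obtain ⟨s, hs, h⟩ := hgood v hv
      exact ⟨s, hs, by simp, h⟩
  have hlow : Low G dep (∅ : Set V) := fun f hf => absurd hf (by simp)
  refine ⟨fun x y h => res_vv B Set.subsingleton_empty hlow hg h,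
    fun a b c d h1 h2 h3 h4 => res_ee B Set.subsingleton_empty hlow hg h1 h2 h3 h4,
    fun x a b h => res_ve B Set.subsingleton_empty hg (fun f hf => absurd hf (by simp))
      (fun f hf => absurd hf (by simp)) h⟩

/-- the local configuration `A - m - q - q'` with `m`, `q` of degree two. -/
structure Cfg (G : SimpleGraph V) (A m q q' : V) : Prop where
  mA : G.Adj m A
  mq : G.Adj m q
  qq' : G.Adj q q'
  m_nb : ∀ z, G.Adj m z → z = A ∨ z = q
  q_nb : ∀ z, G.Adj q z → z = m ∨ z = q'
  Aq' : A ≠ q'
  Aq : A ≠ q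
  mq' : m ≠ q'

theorem Cfg.symm {A m q q' : V} (c : Cfg G A m q q') : Cfg G q' q m A where
  mA := c.qq'
  mq := c.mq.symm
  qq' := c.mA
  m_nb z hz := (c.q_nb z hz).symm
  q_nb z hz := (c.m_nb z hz).symm
  Aq' := c.Aq'.symm
  Aq := c.mq'.symm
  mq' := c.Aq.symm

theorem Cfg.nadj {A m q q' : V} (c : Cfg G A m q q') : ¬ G.Adj q A := by
  intro h
  rcases c.q_nb A h with h | h
  · exact c.mA.ne h.symm
  · exact c.Aq' h

/-- every vertex other than `m` has a member of `W \ {m}` below it. -/
theorem good_drop [Finite V] {r : V} (B : BFS G {r} dep p) (hdeg : ∀ v u, ∃ w, G.Adj v w ∧ w ≠ u)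
    {m A : V} (hpm : p m = A) {y : V} (hy : G.Adj A y) (hym : y ≠ m) (hyA : y ≠ p A)
    (v : V) (hv : v ≠ r) (hvm : v ≠ m) : ∃ s ∈ WS G {r} p, s ≠ m ∧ InT {r} p {v} s := by
  classical
  obtain ⟨l, ⟨hl, hlm⟩, hmax⟩ := Set.exists_max_image {u | InT {r} p {v} u ∧ u ≠ m} dep
    (Set.toFinite _) ⟨v, InT.base v rfl, hvm⟩
  have hlr : l ≠ r := fun h => by
    have h0 := B.dep_root (v := l) h
    have h1 := B.InT_dep (X := {v}) (n := dep v) (by simp) hl
    have h2 := B.dep_pos (v := v) hv
    omega
  obtain ⟨u, hu, hne⟩ := hdeg l (p l)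
  by_cases hpu : p u = l
  · have hur : u ≠ r := fun h => by
      rw [B.p_root u h] at hpu
      exact hu.ne hpu.symm
    have huT : InT {r} p {v} u := InT.step u hur (by rw [hpu]; exact hl)
    have hdu := (B.p_adj u hur).2
    rw [hpu] at hdu
    have hum : u = m := by
      by_contra h
      have h1 := hmax u ⟨huT, h⟩
      omega
    subst hum
    have hlA : l = A := hpu.symm.trans hpm
    subst hlA
    by_cases hpy : p y = l
    · have hyr : y ≠ r := fun h => by
        rw [B.p_root y h] at hpy
        exact hy.ne hpy.symm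
      have hyT : InT {r} p {v} y := InT.step y hyr (by rw [hpy]; exact hl)
      have hdy := (B.p_adj y hyr).2
      rw [hpy] at hdy
      have h1 := hmax y ⟨hyT, hym⟩
      omega
    · exact ⟨l, ⟨y, hy, fun h => hlr h.1, hyA.symm, hpy⟩, hlm, hl⟩
  · exact ⟨l, ⟨u, hu, fun h => hlr h.1, hne.symm, hpu⟩, hlm, hl⟩

/-- dropping `m` from the candidate set. -/
theorem resolves_drop [Finite V] {r : V} (B : BFS G {r} dep p)
    (hdeg : ∀ v u, ∃ w, G.Adj v w ∧ w ≠ u)
    {A m q q' : V} (c : Cfg G A m q q') (hmr : m ≠ r) (hqr : q ≠ r) (hpm : p m = A)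
    (hA3 : ∃ y, G.Adj A y ∧ y ≠ m ∧ y ≠ p A)
    (hdq : dep q = dep A ∨ dep q = dep A + 1)
    {s1 : V} (hs1 : s1 ∈ WS G {r} p) (hs1m : s1 ≠ m) (hs1d : G.dist s1 m < G.dist s1 q) :
    Resolves G (SS G r p {m}) := by
  obtain ⟨y, hy, hym, hyA⟩ := hA3
  have hdm : dep m = dep A + 1 := by
    have := (B.p_adj m hmr).2
    rw [hpm] at this
    exact this.symm
  have hpos : ∀ {x y : V}, x ≠ y → 0 < G.dist x y := fun h => B.conn.pos_dist_of_ne h
  have hlow : Low G dep ({m} : Set V) := by
    rintro f hf z hz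
    rw [Set.mem_singleton_iff] at hf
    subst hf
    rcases c.m_nb z hz with rfl | rfl
    · omega
    · omega
  have hsub : ({m} : Set V).Subsingleton := Set.subsingleton_singleton
  have hgood : ∀ v, v ≠ r → v ∉ ({m} : Set V) →
      ∃ s ∈ WS G {r} p, s ∉ ({m} : Set V) ∧ InT {r} p {v} s := by
    intro v hv hvm
    exact good_drop B hdeg hpm hy hym hyA v hv hvm
  -- the parent of `q` is `q'`
  have hpq : p q = q' := by
    have h := B.p_adj q hqr
    rcases c.q_nb _ h.1 with h' | h'
    · exfalso
      have := h.2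
      rw [h'] at this
      omega
    · exact h'
  have hdq' : dep q' + 1 = dep q := by
    have h := (B.p_adj q hqr).2
    rwa [hpq] at h
  have hntmq : NT G {r} p m q := by
    refine ⟨c.mq, fun h => hmr h.1, ?_, ?_⟩
    · rw [hpm]; exact c.Aq
    · rw [hpq]; exact c.mq'.symm
  have hqW : q ∈ WS G {r} p := ⟨m, BFS.nt_symm hntmq⟩
  have hqS : q ∈ SS G r p {m} := SS_of hqW (fun h => c.mq.ne h.symm)
  have hs1S : s1 ∈ SS G r p {m} := SS_of hs1 hs1m
  have hqm : G.dist q m = 1 := dist_eq_one_iff_adj.mpr c.mq.symm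
  have hqA : 2 ≤ G.dist q A := by
    have h1 := hpos c.Aq.symm
    have h2 : G.dist q A ≠ 1 := fun h => c.nadj (dist_eq_one_iff_adj.mp h)
    omega
  -- the geodesic from `s1` to `m` goes through `A`
  have hs1A : G.dist s1 A + 1 = G.dist s1 m := by
    obtain ⟨z, hz, hz'⟩ := exists_next B.conn (s := m) (x := s1) hs1m.symm
    rw [SimpleGraph.dist_comm (u := z), SimpleGraph.dist_comm (u := m)] at hz'
    rcases c.m_nb z hz with rfl | rfl
    · exact hz'
    · omega
  have hs1q' : G.dist s1 m ≤ G.dist s1 q' := by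
    have h1 : G.dist s1 q ≤ G.dist s1 q' + G.dist q' q := B.conn.dist_triangle
    have h2 : G.dist q' q = 1 := dist_eq_one_iff_adj.mpr c.qq'.symm
    omega
  refine ⟨fun x y h => res_vv B hsub hlow hgood h,
    fun a b c d h1 h2 h3 h4 => res_ee B hsub hlow hgood h1 h2 h3 h4,
    fun x a b h => res_ve B hsub hgood ?_ ?_ h⟩
  · rintro f hf a ha hda x hx
    rw [Set.mem_singleton_iff] at hf
    subst hf
    rcases c.m_nb a ha.symm with rfl | rfl
    · by_cases hxa : x = a
      · subst hxa
        refine ⟨q, hqS, ?_⟩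
        omega
      · by_cases hxq : x = q
        · subst hxq
          refine ⟨x, hqS, ?_⟩
          have : G.dist x x = 0 := dist_self
          omega
        · by_cases h1 : G.dist q x = 1
          · have hadj := dist_eq_one_iff_adj.mp h1
            rcases c.q_nb x hadj with rfl | rfl
            · omega
            · exact ⟨s1, hs1S, by omega⟩
          · have := hpos (Ne.symm hxq)
            exact ⟨q, hqS, by omega⟩
    · by_cases hxa : x = a
      · subst hxa
        exact ⟨s1, hs1S, by omega⟩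
      · refine ⟨a, hqS, ?_⟩
        have h0 : G.dist a a = 0 := dist_self
        have := hpos (Ne.symm hxa)
        omega
  · rintro f hf b hb hdb
    rw [Set.mem_singleton_iff] at hf
    subst hf
    rcases c.m_nb b hb with rfl | rfl
    · omega
    · exact ⟨s1, hs1S, by omega⟩

/-- the heart of the matter: some vertex can be dropped. -/
theorem exists_drop [Finite V] {r : V} (B : BFS G {r} dep p)
    (hdeg : ∀ v u, ∃ w, G.Adj v w ∧ w ≠ u)
    {A m q q' : V} (c : Cfg G A m q q') (hmr : m ≠ r) (hqr : q ≠ r) (hpm : p m = A)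
    (hA3 : ∀ u, ∃ y, G.Adj A y ∧ y ≠ m ∧ y ≠ u)
    (hdq : dep q = dep A ∨ dep q = dep A + 1) :
    ∃ f ∈ WS G {r} p, Resolves G (SS G r p {f}) := by
  have hdm : dep m = dep A + 1 := by
    have := (B.p_adj m hmr).2
    rw [hpm] at this
    exact this.symm
  have hpq : p q = q' := by
    have h := B.p_adj q hqr
    rcases c.q_nb _ h.1 with h' | h'
    · exfalso
      have := h.2
      rw [h'] at this
      omega
    · exact h'
  have hdq' : dep q' + 1 = dep q := by
    have h := (B.p_adj q hqr).2
    rwa [hpq] at h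
  have hntmq : NT G {r} p m q := by
    refine ⟨c.mq, fun h => hmr h.1, ?_, ?_⟩
    · rw [hpm]; exact c.Aq
    · rw [hpq]; exact c.mq'.symm
  have hmW : m ∈ WS G {r} p := ⟨q, hntmq⟩
  have hqW : q ∈ WS G {r} p := ⟨m, BFS.nt_symm hntmq⟩
  have hAr : A ≠ r := by
    rintro rfl
    have h0 := B.dep_root (v := A) rfl
    rcases hdq with h | h
    · omega
    · have h1 := B.root_of_dep (v := q') (by omega)
      exact c.Aq' h1.symm
  obtain ⟨y, hy, hym, hyA⟩ := hA3 (p A)
  obtain ⟨s, hsW, hsm, hsT⟩ := good_drop B hdeg hpm hy hym hyA A hAr c.mA.symm.ne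
  have hsJ := BFS.J_single.mp (B.InT_J hsT)
  -- reduction to distances from `q'`
  have red : ∀ s : V, s ≠ m → s ≠ q → G.dist s A + dep A = dep s →
      (dep s < G.dist s q' + dep q' ∨ dep q' < dep A) → G.dist s m < G.dist s q := by
    intro s hsm hsq hJ h
    have h1 : G.dist s m ≤ G.dist s A + G.dist A m := B.conn.dist_triangle
    have h2 : G.dist A m = 1 := dist_eq_one_iff_adj.mpr c.mA.symm
    have h3 := B.dep_lip s q'
    obtain ⟨z, hz, hz'⟩ := exists_next B.conn (s := q) (x := s) hsq.symm
    rw [SimpleGraph.dist_comm (u := z), SimpleGraph.dist_comm (u := q)] at hz'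
    rcases c.q_nb z hz with rfl | rfl
    · omega
    · omega
  rcases hdq with hdq | hdq
  · -- vertical case
    have hsq : s ≠ q := by
      rintro rfl
      have := B.InT_base (X := {A}) (n := dep A) (by simp) hsT hdq
      exact c.Aq.symm this
    exact ⟨m, hmW, resolves_drop B hdeg c hmr hqr hpm ⟨y, hy, hym, hyA⟩ (Or.inl hdq) hsW hsm
      (red s hsm hsq hsJ (Or.inr (by omega)))⟩
  · -- horizontal case
    have hdqA : dep q' = dep A := by omega
    have hq'r : q' ≠ r := by
      rintro rfl
      have h0 := B.dep_root (v := q') rfl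
      exact hAr (B.root_of_dep (by omega))
    have hsq : s ≠ q := by
      rintro rfl
      have h1 := (B.InT_parent hsT (by
        intro h
        rw [Set.mem_singleton_iff] at h
        exact c.Aq h.symm)).1
      rw [hpq] at h1
      have := B.InT_base (X := {A}) (n := dep A) (by simp) h1 hdqA
      exact c.Aq' this.symm
    by_cases h3 : ∀ u, ∃ y, G.Adj q' y ∧ y ≠ q ∧ y ≠ u
    · -- both ends have degree at least three
      have hlow : Low G dep ({m, q} : Set V) := by
        rintro f hf z hz
        simp only [Set.mem_insert_iff, Set.mem_singleton_iff] at hf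
        rcases hf with rfl | rfl
        · rcases c.m_nb z hz with rfl | rfl <;> omega
        · rcases c.q_nb z hz with rfl | rfl <;> omega
      obtain ⟨t, htW, htF, htJ⟩ := lemmaA B (F := {m, q}) (X := {A}) (Y := {q'}) (n := dep A)
        hlow (by simp) (by simpa using hdqA) (by simpa using c.Aq')
        ⟨s, hsW, by simp [hsm, hsq], hsT⟩
      simp only [Set.mem_insert_iff, Set.mem_singleton_iff, not_or] at htF
      rw [BFS.J_single, BFS.J_single] at htJ
      have hl1 := B.dep_lip t A
      have hl2 := B.dep_lip t q'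
      by_cases hJA : G.dist t A + dep A = dep t
      · exact ⟨m, hmW, resolves_drop B hdeg c hmr hqr hpm ⟨y, hy, hym, hyA⟩ (Or.inr hdq) htW
          htF.1 (red t htF.1 htF.2 hJA (Or.inl (by omega)))⟩
      · have hJq : G.dist t q' + dep q' = dep t := by
          by_contra h
          exact htJ ⟨fun h' => absurd h' hJA, fun h' => absurd h' h⟩
        obtain ⟨y', hy', hyq, hyq'⟩ := h3 (p q')
        have hd : G.dist t q < G.dist t m := by
          have h1 : G.dist t q ≤ G.dist t q' + G.dist q' q := B.conn.dist_triangle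
          have h2 : G.dist q' q = 1 := dist_eq_one_iff_adj.mpr c.qq'.symm
          obtain ⟨z, hz, hz'⟩ := exists_next B.conn (s := m) (x := t) (Ne.symm htF.1)
          rw [SimpleGraph.dist_comm (u := z), SimpleGraph.dist_comm (u := m)] at hz'
          rcases c.m_nb z hz with rfl | rfl
          · omega
          · omega
        exact ⟨q, hqW, resolves_drop B hdeg c.symm hqr hmr hpq ⟨y', hy', hyq, hyq'⟩
          (Or.inr (by omega)) htW htF.2 hd⟩
    · push Not at h3
      obtain ⟨u, hu⟩ := h3
      -- `q'` has only the neighbours `q` and its parent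
      have hpq' := B.p_adj q' hq'r
      have hnb : ∀ z, G.Adj q' z → z = q ∨ z = p q' := by
        intro z hz
        by_contra hcon
        push Not at hcon
        have e1 := hu z hz hcon.1
        have e2 := hu (p q') hpq'.1 (fun h => by
          have := hpq'.2
          rw [h] at this
          omega)
        exact hcon.2 (e1.trans e2.symm)
      have hsq' : s ≠ q' := by
        rintro rfl
        obtain ⟨w, hw⟩ := hsW
        rcases hnb w hw.1 with rfl | rfl
        · exact hw.2.2.2 hpq
        · exact hw.2.2.1 rfl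
      refine ⟨m, hmW, resolves_drop B hdeg c hmr hqr hpm ⟨y, hy, hym, hyA⟩ (Or.inr hdq) hsW hsm
        ?_⟩
      by_contra hcon
      have hJq : ¬ (dep s < G.dist s q' + dep q' ∨ dep q' < dep A) := fun h =>
        hcon (red s hsm hsq hsJ h)
      have h1 : G.dist s m ≤ G.dist s A + G.dist A m := B.conn.dist_triangle
      have h2 : G.dist A m = 1 := dist_eq_one_iff_adj.mpr c.mA.symm
      obtain ⟨z, hz, hz'⟩ := exists_next B.conn (s := q') (x := s) hsq'.symm
      rw [SimpleGraph.dist_comm (u := z), SimpleGraph.dist_comm (u := q')] at hz'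
      rcases hnb z hz with rfl | rfl
      · obtain ⟨z2, hz2, hz2'⟩ := exists_next B.conn (s := z) (x := s) hsq.symm
        rw [SimpleGraph.dist_comm (u := z2), SimpleGraph.dist_comm (u := z)] at hz2'
        rcases c.q_nb z2 hz2 with rfl | rfl
        · omega
        · omega
      · have h4 := B.dep_lip s (p q')
        have h5 := hpq'.2
        omega

end Pool.Agent.H346R3
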