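import Pool.Agent.H346R3.MixedB

set_option autoImplicit false

namespace Pool.Agent.H346R3

open SimpleGraph Pool.Agent.Helper431

variable {V : Type*} {G : SimpleGraph V} {dep : V → ℕ} {p : V → V}

/-- the number of non-tree edges. -/
theorem card_NE_root [Fintype V] [DecidableEq V] [DecidableRel G.Adj] {r : V}
    (B : BFS G {r} dep p) :
    (NE G {r} p).card + Fintype.card V ≤ G.edgeFinset.card + 1 := by
  classical
  let T : Finset (Sym2 V) := (Finset.univ.erase r).image (fun v => s(v, p v))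
  have hnotR : ∀ {v : V}, v ∈ Finset.univ.erase r → v ∉ ({r} : Set V) := by
    intro v hv
    simpa using hv
  have hTcard : T.card = Fintype.card V - 1 := by
    rw [Finset.card_image_of_injOn, Finset.card_erase_of_mem (Finset.mem_univ r), Finset.card_univ]
    intro v hv w hw h
    have hv' := B.p_adj v (hnotR hv)
    have hw' := B.p_adj w (hnotR hw)
    simp only [Sym2.eq_iff] at h
    rcases h with h | ⟨h1, h2⟩
    · exact h.1
    · rw [← h1] at hw'
      rw [h2] at hv'
      omega
  have hTG : T ⊆ G.edgeFinset := by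
    intro e he
    simp only [T, Finset.mem_image] at he
    obtain ⟨v, hv, rfl⟩ := he
    rw [mem_edgeFinset]
    exact (B.p_adj v (hnotR hv)).1
  have hNG : NE G {r} p ⊆ G.edgeFinset := by
    intro e he
    rw [mem_NE] at he
    obtain ⟨u, v, rfl, h⟩ := he
    rw [mem_edgeFinset]
    exact h.1
  have hNT : Disjoint (NE G {r} p) T := by
    rw [Finset.disjoint_left]
    intro e he he'
    rw [mem_NE] at he
    obtain ⟨u, v, rfl, h⟩ := he
    simp only [T, Finset.mem_image, Sym2.eq_iff] at he'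
    obtain ⟨w, hw, (⟨h1, h2⟩ | ⟨h1, h2⟩)⟩ := he'
    · subst h1; exact h.2.2.1 h2
    · subst h1; exact h.2.2.2 h2
  have h1 := Finset.card_le_card (Finset.union_subset hNG hTG)
  rw [Finset.card_union_of_disjoint hNT, hTcard] at h1
  have h2 : 0 < Fintype.card V := Fintype.card_pos_iff.mpr ⟨r⟩
  omega

/-- the slack case -/
theorem slack_case [Fintype V] [DecidableEq V] [DecidableRel G.Adj] {r : V}
    (B : BFS G {r} dep p) (hdeg2 : ∀ v : V, 2 ≤ G.degree v) {v : V} (hv : 3 ≤ G.degree v)
    (hNT : ∀ z, G.Adj v z → z ≠ p v → p z ≠ v) :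
    ∃ S : Finset V,
      (S.card : ℤ) ≤ 2 * ((G.edgeFinset.card : ℤ) - (Fintype.card V : ℤ) + 1) ∧
      Resolves G (S : Set V) := by
  classical
  have hcard : 1 < ((G.neighborFinset v).erase (p v)).card := by
    have h1 := Finset.pred_card_le_card_erase (s := G.neighborFinset v) (a := p v)
    rw [card_neighborFinset_eq_degree] at h1
    omega
  obtain ⟨z, hz, z', hz', hne⟩ := Finset.one_lt_card.mp hcard
  rw [Finset.mem_erase, mem_neighborFinset] at hz hz'
  have hnt : ∀ z, G.Adj v z → z ≠ p v → NT G {r} p v z := by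
    intro z hz hzp
    refine ⟨hz, ?_, hzp.symm, hNT z hz hzp⟩
    rintro ⟨h1, h2⟩
    rw [Set.mem_singleton_iff] at h1 h2
    exact hz.ne (h1.trans h2.symm)
  have h1 := card_Wf_lt {r} hne (hnt z hz.2 hz.1) (hnt z' hz'.2 hz'.1)
  have h2 := card_NE_root B
  have h3 := Finset.card_insert_le r (Wf G {r} p)
  refine ⟨insert r (Wf G {r} p), ?_, ?_⟩
  · have hb : ((insert r (Wf G {r} p)).card : ℤ) ≤ (Wf G {r} p).card + 1 := by exact_mod_cast h3
    have ha : ((Wf G {r} p).card : ℤ) + 1 ≤ 2 * (NE G {r} p).card := by exact_mod_cast h1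
    have hc : ((NE G {r} p).card : ℤ) + Fintype.card V ≤ G.edgeFinset.card + 1 := by
      exact_mod_cast h2
    omega
  · have heq : ((insert r (Wf G {r} p) : Finset V) : Set V) = SS G r p ∅ := by
      ext x
      simp only [Finset.coe_insert, Set.mem_insert_iff, Finset.mem_coe, mem_Wf, SS,
        Set.mem_ofPred_eq, Set.mem_empty_iff_false, not_false_eq_true, and_true]
    rw [heq]
    exact resolves_full B (fun v hv => B.exists_W_below hdeg2 v hv)

/-- the drop case -/
theorem drop_case [Fintype V] [DecidableEq V] [DecidableRel G.Adj] {r : V}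
    (B : BFS G {r} dep p) {f : V} (hf : f ∈ WS G {r} p) (hR : Resolves G (SS G r p {f})) :
    ∃ S : Finset V,
      (S.card : ℤ) ≤ 2 * ((G.edgeFinset.card : ℤ) - (Fintype.card V : ℤ) + 1) ∧
      Resolves G (S : Set V) := by
  classical
  have h1 := card_Wf_le (G := G) (p := p) ({r} : Set V)
  have h2 := card_NE_root B
  have h3 := Finset.card_insert_le r ((Wf G {r} p).erase f)
  have h4 : ((Wf G {r} p).erase f).card + 1 = (Wf G {r} p).card :=
    Finset.card_erase_add_one (mem_Wf.mpr hf)
  refine ⟨insert r ((Wf G {r} p).erase f), ?_, ?_⟩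
  · have hb : ((insert r ((Wf G {r} p).erase f)).card : ℤ) ≤ ((Wf G {r} p).erase f).card + 1 := by
      exact_mod_cast h3
    have ha : ((Wf G {r} p).card : ℤ) ≤ 2 * (NE G {r} p).card := by exact_mod_cast h1
    have hc : ((NE G {r} p).card : ℤ) + Fintype.card V ≤ G.edgeFinset.card + 1 := by
      exact_mod_cast h2
    have hd : (((Wf G {r} p).erase f).card : ℤ) + 1 = (Wf G {r} p).card := by exact_mod_cast h4
    omega
  · have heq : ((insert r ((Wf G {r} p).erase f) : Finset V) : Set V) = SS G r p {f} := by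
      ext x
      simp only [Finset.coe_insert, Set.mem_insert_iff, Finset.mem_coe, Finset.mem_erase, mem_Wf,
        SS, Set.mem_ofPred_eq, Set.mem_singleton_iff, and_comm]
    rw [heq]
    exact hR

/-- no two adjacent vertices of degree two. -/
theorem case_two [Fintype V] [DecidableEq V] [DecidableRel G.Adj] (hc : G.Connected)
    (hcard : 2 ≤ Fintype.card V)
    (hdeg2 : ∀ v : V, 2 ≤ G.degree v) (hdeg : ∀ v u, ∃ w, G.Adj v w ∧ w ≠ u)
    (hno : ∀ m q, G.Adj m q → G.degree m = 2 → G.degree q ≠ 2) :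
    ∃ S : Finset V,
      (S.card : ℤ) ≤ 2 * ((G.edgeFinset.card : ℤ) - (Fintype.card V : ℤ) + 1) ∧
      Resolves G (S : Set V) := by
  classical
  obtain ⟨r⟩ : Nonempty V := hc.nonempty
  obtain ⟨dep, p, B⟩ := exists_BFS hc (R := {r}) ⟨r, rfl⟩
  obtain ⟨M, -, hmax⟩ := Finset.exists_max_image Finset.univ dep ⟨r, Finset.mem_univ r⟩
  have hmax' : ∀ v, dep v ≤ dep M := fun v => hmax v (Finset.mem_univ v)
  by_cases hbig : ∃ v, dep v = dep M ∧ 3 ≤ G.degree v
  · obtain ⟨v, hv, hv3⟩ := hbig
    exact slack_case B hdeg2 hv3 (fun z hz _ => B.p_ne (by rw [hv]; exact hmax' z) hz.symm.ne)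
  · have hsmall : ∀ v, dep v = dep M → G.degree v = 2 := by
      intro v hv
      have h1 := hdeg2 v
      have h2 : ¬ 3 ≤ G.degree v := fun h => hbig ⟨v, hv, h⟩
      omega
    have hMr : M ≠ r := by
      rintro rfl
      have h0 := B.dep_root (v := M) rfl
      obtain ⟨w, hw⟩ : ∃ w, w ≠ M := Fintype.exists_ne_of_one_lt_card (by omega) M
      have h1 := B.dep_pos (v := w) hw
      have := hmax' w
      omega
    have hlev : ∀ v w, dep v = dep M → G.Adj v w → dep w + 1 = dep M := by
      intro v w hv hw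
      have h1 := B.dep_adj hw
      have h2 := hmax' w
      have h3 : dep w ≠ dep M := fun h => hno v w hw (hsmall v hv) (hsmall w h)
      omega
    let A := p M
    have hMA := B.p_adj M hMr
    have hA3 : 3 ≤ G.degree A := by
      have h1 := hdeg2 A
      have h2 := hno M A hMA.1 (hsmall M rfl)
      omega
    choose g hg using fun v => hdeg v A
    let p' : V → V := fun v => if dep v = dep M then g v else p v
    have hr0 := B.dep_root (v := r) rfl
    have hM0 := B.dep_pos (v := M) hMr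
    have B' : BFS G {r} dep p' := by
      refine ⟨B.conn, B.dep_le, B.dep_att, ?_, ?_⟩
      · intro v hv
        by_cases h : dep v = dep M
        · simp only [p', if_pos h]
          exact ⟨(hg v).1, by rw [hlev v (g v) h (hg v).1, h]⟩
        · simp only [p', if_neg h]
          exact B.p_adj v hv
      · intro v hv
        rw [Set.mem_singleton_iff] at hv
        subst hv
        have h : dep v ≠ dep M := by omega
        simp only [p', if_neg h]
        exact B.p_root v rfl
    refine slack_case B' hdeg2 hA3 ?_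
    intro z hz _
    by_cases h : dep z = dep M
    · simp only [p', if_pos h]
      exact (hg z).2
    · have h1 : dep z ≤ dep A + 1 := B.dep_adj hz.symm
      have h2 : dep A + 1 = dep M := hMA.2
      exact B'.p_ne (by
        have := hmax' z
        omega) hz.symm.ne

theorem exists_third [Fintype V] [DecidableEq V] (h3 : 3 ≤ Fintype.card V) (u v : V) :
    ∃ w, w ≠ u ∧ w ≠ v := by
  have h : ({u, v} : Finset V).card < (Finset.univ : Finset V).card := by
    rw [Finset.card_univ]
    exact lt_of_le_of_lt Finset.card_le_two (by omega)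
  obtain ⟨w, -, hw⟩ := Finset.exists_mem_notMem_of_card_lt_card h
  simp only [Finset.mem_insert, Finset.mem_singleton, not_or] at hw
  exact ⟨w, hw.1, hw.2⟩

/-- in a 2-connected graph all degrees are at least two. -/
theorem two_nb [Fintype V] [DecidableEq V] (hc : G.Connected) (h3 : 3 ≤ Fintype.card V)
    (h2 : ∀ v, (G.induce {v}ᶜ).Connected) (v u : V) : ∃ w, G.Adj v w ∧ w ≠ u := by
  obtain ⟨w, hwu, hwv⟩ := exists_third h3 u v
  by_cases huv : u = v
  · obtain ⟨z, hz, -⟩ := exists_next hc (Ne.symm hwv)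
    exact ⟨z, hz, by rw [huv]; exact hz.symm.ne⟩
  · have hne : (⟨v, Ne.symm huv⟩ : ({u}ᶜ : Set V)) ≠ ⟨w, hwu⟩ := by
      intro h
      exact hwv (Subtype.ext_iff.mp h).symm
    obtain ⟨z, hz, -⟩ := exists_next (h2 u) hne
    exact ⟨z.1, hz, z.2⟩

/-- two adjacent vertices of degree two. -/
theorem case_one [Fintype V] [DecidableEq V] [DecidableRel G.Adj] (hc : G.Connected)
    (h3 : 3 ≤ Fintype.card V) (h2 : ∀ v, (G.induce {v}ᶜ).Connected)
    (hdeg2 : ∀ v : V, 2 ≤ G.degree v) (hbig : ∃ v, 3 ≤ G.degree v)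
    (hyes : ∃ m q, G.Adj m q ∧ G.degree m = 2 ∧ G.degree q = 2) :
    ∃ S : Finset V,
      (S.card : ℤ) ≤ 2 * ((G.edgeFinset.card : ℤ) - (Fintype.card V : ℤ) + 1) ∧
      Resolves G (S : Set V) := by
  classical
  have hdeg := two_nb hc h3 h2
  -- the local configuration
  obtain ⟨m, q, A, hmq, hmA, hm2, hq2, hA3, hAq⟩ : ∃ m q A, G.Adj m q ∧ G.Adj m A ∧
      G.degree m = 2 ∧ G.degree q = 2 ∧ 3 ≤ G.degree A ∧ A ≠ q := by
    obtain ⟨m0, q0, h0, hm0, hq0⟩ := hyes
    obtain ⟨b, hb⟩ := hbig
    let X : Set V := {v | G.degree v = 2 ∧ ∃ w, G.Adj v w ∧ G.degree w = 2}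
    obtain ⟨w⟩ := hc.preconnected m0 b
    have hm0X : m0 ∈ X := ⟨hm0, q0, h0, hq0⟩
    have hbX : b ∉ X := fun h => by have := h.1; omega
    obtain ⟨d, -, hd1, hd2⟩ := w.exists_boundary_dart X hm0X hbX
    obtain ⟨q, hq, hq2⟩ := hd1.2
    have hsnd : G.degree d.snd ≠ 2 := fun h => hd2 ⟨h, d.fst, d.adj.symm, hd1.1⟩
    have h5 := hdeg2 d.snd
    exact ⟨d.fst, q, d.snd, hq, d.adj, hd1.1, hq2, by omega, fun h => hsnd (by rw [h]; exact hq2)⟩
  obtain ⟨q', hqq', hq'm⟩ := hdeg q m
  have nb2 : ∀ {v a b : V}, G.degree v = 2 → G.Adj v a → G.Adj v b → a ≠ b →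
      ∀ z, G.Adj v z → z = a ∨ z = b := by
    intro v a b hv ha hb hab z hz
    have h1 : ({a, b} : Finset V) ⊆ G.neighborFinset v := by
      intro x hx
      simp only [Finset.mem_insert, Finset.mem_singleton] at hx
      rw [mem_neighborFinset]
      rcases hx with rfl | rfl
      · exact ha
      · exact hb
    have h2 : ({a, b} : Finset V) = G.neighborFinset v := by
      apply Finset.eq_of_subset_of_card_le h1
      rw [card_neighborFinset_eq_degree, hv, Finset.card_pair hab]
    have h3 : z ∈ ({a, b} : Finset V) := by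
      rw [h2, mem_neighborFinset]; exact hz
    simpa using h3
  have hmnb := nb2 hm2 hmA hmq hAq
  have hqnb := nb2 hq2 hmq.symm hqq' (Ne.symm hq'm)
  have third : ∀ a b : V, ∃ y, G.Adj A y ∧ y ≠ a ∧ y ≠ b := by
    intro a b
    have h : ({a, b} : Finset V).card < (G.neighborFinset A).card := by
      rw [card_neighborFinset_eq_degree]
      exact lt_of_le_of_lt Finset.card_le_two (by omega)
    obtain ⟨w, hw, hw'⟩ := Finset.exists_mem_notMem_of_card_lt_card h
    simp only [Finset.mem_insert, Finset.mem_singleton, not_or] at hw'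
    rw [mem_neighborFinset] at hw
    exact ⟨w, hw, hw'.1, hw'.2⟩
  have hAq' : A ≠ q' := by
    intro hA
    obtain ⟨y, hy, hym, hyq⟩ := third m q
    have hmAne : m ∈ ({A}ᶜ : Set V) := hmA.ne
    have hyAne : y ∈ ({A}ᶜ : Set V) := hy.symm.ne
    obtain ⟨w⟩ := (h2 A).preconnected ⟨m, hmAne⟩ ⟨y, hyAne⟩
    obtain ⟨d, -, hd1, hd2⟩ := w.exists_boundary_dart {x | x.1 = m ∨ x.1 = q} (Or.inl rfl)
      (by simp [hym, hyq])
    have hadj : G.Adj d.fst.1 d.snd.1 := d.adj
    have hsA : d.snd.1 ≠ A := d.snd.2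
    rcases hd1 with h | h
    · rw [h] at hadj
      rcases hmnb _ hadj with h' | h'
      · exact hsA h'
      · exact hd2 (Or.inr h')
    · rw [h] at hadj
      rcases hqnb _ hadj with h' | h'
      · exact hd2 (Or.inl h')
      · exact hsA (h'.trans hA.symm)
  have c : Cfg G A m q q' := ⟨hmA, hmq, hqq', hmnb, hqnb, hAq', hAq, Ne.symm hq'm⟩
  -- the root
  obtain ⟨r, hrm, hrq, hr1, hr2⟩ : ∃ r, r ≠ m ∧ r ≠ q ∧ G.dist r A ≤ G.dist r q ∧
      G.dist r q ≤ G.dist r A + 1 := by
    have hqm' : q ∈ ({m}ᶜ : Set V) := hmq.symm.ne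
    have hAm' : A ∈ ({m}ᶜ : Set V) := hmA.symm.ne
    obtain ⟨w⟩ := (h2 m).preconnected ⟨q, hqm'⟩ ⟨A, hAm'⟩
    have hpos : 0 < G.dist q A := hc.pos_dist_of_ne hAq.symm
    obtain ⟨d, -, hd1, hd2⟩ := w.exists_boundary_dart {x | G.dist x.1 q < G.dist x.1 A}
      (by
        have h0 : G.dist q q = 0 := dist_self
        change G.dist q q < G.dist q A
        omega)
      (by
        have h0 : G.dist A A = 0 := dist_self
        change ¬ (G.dist A q < G.dist A A)
        omega)
    have hadj : G.Adj d.fst.1 d.snd.1 := d.adj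
    have hs : d.snd.1 ≠ m := d.snd.2
    change G.dist d.fst.1 q < G.dist d.fst.1 A at hd1
    change ¬ (G.dist d.snd.1 q < G.dist d.snd.1 A) at hd2
    have e1 : G.dist d.snd.1 q ≤ G.dist d.snd.1 d.fst.1 + G.dist d.fst.1 q := hc.dist_triangle
    have e2 : G.dist d.fst.1 A ≤ G.dist d.fst.1 d.snd.1 + G.dist d.snd.1 A := hc.dist_triangle
    have e3 : G.dist d.fst.1 d.snd.1 = 1 := dist_eq_one_iff_adj.mpr hadj
    have e4 : G.dist d.snd.1 d.fst.1 = 1 := dist_eq_one_iff_adj.mpr hadj.symm
    refine ⟨d.snd.1, hs, ?_, by omega, by omega⟩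
    intro h
    rw [h] at hd2
    have h0 : G.dist q q = 0 := dist_self
    omega
  obtain ⟨dep, p, B⟩ := exists_BFS hc (R := {r}) ⟨r, rfl⟩
  have dA := dist_root B A
  have dq := dist_root B q
  have dm := dist_root B m
  have hdm : dep A + 1 = dep m := by
    obtain ⟨z, hz, hz'⟩ := exists_next hc (s := m) (x := r) hrm.symm
    rw [SimpleGraph.dist_comm (u := z), SimpleGraph.dist_comm (u := m)] at hz'
    have h1 := B.dep_adj hmA
    rcases hmnb z hz with h | h
    · rw [h] at hz'; omega
    · rw [h] at hz'; omega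
  have hpm : (Function.update p m A) m = A := Function.update_self ..
  have B' : BFS G {r} dep (Function.update p m A) := by
    refine ⟨B.conn, B.dep_le, B.dep_att, ?_, ?_⟩
    · intro v hv
      by_cases h : v = m
      · subst h
        rw [hpm]
        exact ⟨hmA, hdm⟩
      · rw [Function.update_of_ne h]
        exact B.p_adj v hv
    · intro v hv
      have h : v ≠ m := fun h => hrm (hv.symm.trans h)
      rw [Function.update_of_ne h]
      exact B.p_root v hv
  obtain ⟨f, hf, hR⟩ := exists_drop B' hdeg c hrm.symm hrq.symm hpm (fun u => third m u)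
    (by omega)
  exact drop_case B' hf hR

theorem main [Fintype V] [DecidableEq V] [DecidableRel G.Adj] (hc : G.Connected)
    (h3 : 3 ≤ Fintype.card V) (h2 : ∀ v, (G.induce {v}ᶜ).Connected)
    (hbig : ∃ v, 3 ≤ G.degree v) :
    ∃ S : Finset V,
      (S.card : ℤ) ≤ 2 * ((G.edgeFinset.card : ℤ) - (Fintype.card V : ℤ) + 1) ∧
      Resolves G (S : Set V) := by
  have hdeg := two_nb hc h3 h2
  have hdeg2 : ∀ v : V, 2 ≤ G.degree v := by
    intro v
    obtain ⟨a, ha, -⟩ := hdeg v v
    obtain ⟨b, hb, hba⟩ := hdeg v a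
    rw [← card_neighborFinset_eq_degree]
    have h : ({a, b} : Finset V) ⊆ G.neighborFinset v := by
      intro x hx
      simp only [Finset.mem_insert, Finset.mem_singleton] at hx
      rw [mem_neighborFinset]
      rcases hx with rfl | rfl
      · exact ha
      · exact hb
    have := Finset.card_le_card h
    rwa [Finset.card_pair hba.symm] at this
  by_cases h : ∃ m q, G.Adj m q ∧ G.degree m = 2 ∧ G.degree q = 2
  · exact case_one hc h3 h2 hdeg2 hbig h
  · exact case_two hc (by omega) hdeg2 hdeg (fun m q h1 hm hq => h ⟨m, q, h1, hm, hq⟩)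

end Pool.Agent.H346R3
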